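import Pool.Agent.L7h50.AG.Core

/-!
# Finitely supported age distributions are determined by the cluster size law

The tree `T^π`: the root has an age with the distribution `π`, a vertex of age `s` has children whose ages form a Poisson
random measure with the intensity `min s u dπ(u)`. `IsClusterLaw π q` says that the numbers `q s k` (`= P(|T| = k)` for the
tree with a root of age `s`) have the generating functions `G_s(x) = ∑ q s k x ^ k` with
`G_s(x) = x exp (∫ min s u (G_u(x) - 1) dπ(u))`, which is the equation for the total progeny of a multitype Galton-Watson tree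
with Poisson offspring.

Result: for probability measures `π`, `π'` on `[0, ∞)` with finite support, the same cluster size law
`v_k = ∫ q s k dπ(s)` implies `π = π'` (no criticality is needed).

Method: `w = log |G|` as a function of the age is, for negative `x = -e^p`, the solution of `w'' = (e^w + 1) π`, `w(0) = p`,
`w' = 0` at infinity, and `1 - ∑ v_k x ^ k` is the slope `-w'(0)`. So the cluster size law is a nonlinear
Dirichlet-to-Neumann function `Λ(p)`, known for `p < 0`. For finitely many atoms it is analytic on the whole real line, so it is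
known for all `p`, and its growth for `p → ∞` gives first the smallest age, then its mass, and then the
Dirichlet-to-Neumann function beyond this age (`Pool.Agent.L7h50.AG`).
-/

set_option autoImplicit false

open MeasureTheory Finset

namespace Pool.Agent.Results.MP_87e96d_pr.FinitelyManyAges

open Pool.Agent.L7h50.AG

/-- The numbers `q s k` (`k = 0, 1, 2, ...`) are the law of the number of vertices of the tree with a root of age `s`: a
(possibly defective) probability distribution on `{1, 2, ...}` for each age `s`, and the generating functions satisfy the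
equation of the total progeny of the branching process with the offspring intensity `min s u dπ(u)`. -/
structure IsClusterLaw (π : Measure ℝ) (q : ℝ → ℕ → ℝ) : Prop where
  nonneg : ∀ s k, 0 ≤ q s k
  zero : ∀ s, q s 0 = 0
  summable : ∀ s, Summable (q s)
  sum_le_one : ∀ s, ∑' k, q s k ≤ 1
  equation : ∀ s, 0 ≤ s → ∀ x, 0 ≤ x → x ≤ 1 →
    ∑' k, q s k * x ^ k = x * Real.exp (∫ u, min s u * ((∑' k, q u k * x ^ k) - 1) ∂π)

/-- `π` is carried by finitely many ages in `[0, ∞)`. -/
def CarriedByFinitelyManyAges (π : Measure ℝ) : Prop :=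
  ∃ S : Finset ℝ, (∀ s ∈ S, 0 ≤ s) ∧ π (S : Set ℝ)ᶜ = 0

lemma integral_eq (π : Measure ℝ) [IsProbabilityMeasure π] (S : Finset ℝ) (hS : π (S : Set ℝ)ᶜ = 0)
    (f : ℝ → ℝ) : ∫ u, f u ∂π = ∑ u ∈ S.filter (fun u => 0 < π.real {u}), π.real {u} * f u := by
  have h1 : π.restrict (S : Set ℝ) = π := by
    apply Measure.restrict_eq_self_of_ae_mem
    rw [ae_iff]
    exact hS
  have h2 := setIntegral_finset (μ := π) (f := f) S IntegrableOn.finset
  rw [h1] at h2
  rw [h2, Finset.sum_filter]
  apply Finset.sum_congr rfl
  intro u _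
  split_ifs with h
  · rw [smul_eq_mul]
  · have : π.real {u} = 0 := le_antisymm (not_lt.1 h) measureReal_nonneg
    rw [this, zero_smul]

theorem result (π π' : Measure ℝ) [IsProbabilityMeasure π] [IsProbabilityMeasure π']
    (hπ : CarriedByFinitelyManyAges π) (hπ' : CarriedByFinitelyManyAges π') (q q' : ℝ → ℕ → ℝ)
    (hq : IsClusterLaw π q) (hq' : IsClusterLaw π' q')
    (h : ∀ k : ℕ, ∫ s, q s k ∂π = ∫ s, q' s k ∂π') : π = π' := by
  obtain ⟨S, hS0, hS⟩ := hπ
  obtain ⟨S', hS0', hS'⟩ := hπ'
  obtain ⟨A, hA⟩ : ∃ A, A = S.filter (fun u => 0 < π.real {u}) := ⟨_, rfl⟩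
  obtain ⟨A', hA'⟩ : ∃ A', A' = S'.filter (fun u => 0 < π'.real {u}) := ⟨_, rfl⟩
  have hI : ∀ f : ℝ → ℝ, ∫ u, f u ∂π = ∑ u ∈ A, π.real {u} * f u := by
    intro f; rw [hA]; exact integral_eq π S hS f
  have hI' : ∀ f : ℝ → ℝ, ∫ u, f u ∂π' = ∑ u ∈ A', π'.real {u} * f u := by
    intro f; rw [hA']; exact integral_eq π' S' hS' f
  have h0 : ∀ s ∈ A, 0 ≤ s := fun s hs => hS0 s (by rw [hA, mem_filter] at hs; exact hs.1)
  have h0' : ∀ s ∈ A', 0 ≤ s := fun s hs => hS0' s (by rw [hA', mem_filter] at hs; exact hs.1)
  have hm : ∀ s ∈ A, 0 < π.real {s} := fun s hs => by rw [hA, mem_filter] at hs; exact hs.2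
  have hm' : ∀ s ∈ A', 0 < π'.real {s} := fun s hs => by rw [hA', mem_filter] at hs; exact hs.2
  have h1 : ∑ s ∈ A, π.real {s} = 1 := by
    have := hI (fun _ => 1)
    simpa using this.symm
  have h1' : ∑ s ∈ A', π'.real {s} = 1 := by
    have := hI' (fun _ => 1)
    simpa using this.symm
  have hc := core A A' (fun s => π.real {s}) (fun s => π'.real {s})
    (fun s x => ∑' k, q s k * x ^ k) (fun s x => ∑' k, q' s k * x ^ k) h0 hm h1 h0' hm' h1'
    (by
      intro s hs x hx
      apply extend A (fun s => π.real {s}) q hq.summable hq.nonneg s _ x hx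
      intro y hy0 hy1
      rw [hq.equation s (h0 s hs) y hy0 hy1, hI])
    (by
      intro s hs x hx
      apply extend A' (fun s => π'.real {s}) q' hq'.summable hq'.nonneg s _ x hx
      intro y hy0 hy1
      rw [hq'.equation s (h0' s hs) y hy0 hy1, hI'])
    (by
      intro x hx
      have key : ∀ (B : Finset ℝ) (m : ℝ → ℝ) (r : ℝ → ℕ → ℝ), (∀ s, Summable (r s)) →
          (∀ s k, 0 ≤ r s k) → ∑ u ∈ B, m u * ∑' k, r u k * x ^ k =
          ∑' k, (∑ u ∈ B, m u * r u k) * x ^ k := by
        intro B m r hr hr0
        have hs : ∀ u, Summable fun k => r u k * x ^ k := by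
          intro u
          apply Summable.of_norm_bounded (hr u)
          intro k
          rw [norm_mul, norm_pow, Real.norm_of_nonneg (hr0 u k), Real.norm_eq_abs]
          exact mul_le_of_le_one_right (hr0 u k) (pow_le_one₀ (abs_nonneg x) hx.le)
        have e1 : ∀ k, (∑ u ∈ B, m u * r u k) * x ^ k = ∑ u ∈ B, m u * (r u k * x ^ k) := by
          intro k
          rw [Finset.sum_mul]
          apply Finset.sum_congr rfl
          intro u _
          ring
        simp_rw [e1]
        rw [Summable.tsum_finsetSum fun u _ => (hs u).mul_left (m u)]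
        apply Finset.sum_congr rfl
        intro u _
        rw [tsum_mul_left]
      rw [key A _ q hq.summable hq.nonneg, key A' _ q' hq'.summable hq'.nonneg]
      apply tsum_congr
      intro k
      have e2 := h k
      rw [hI, hI'] at e2
      rw [e2])
  obtain ⟨r1, r2⟩ := hc
  ext B hB
  have e3 : π.real B = π'.real B := by
    have a1 : π.real B = ∫ u, B.indicator (fun _ => (1 : ℝ)) u ∂π := by
      rw [integral_indicator hB]
      simp
    have a2 : π'.real B = ∫ u, B.indicator (fun _ => (1 : ℝ)) u ∂π' := by
      rw [integral_indicator hB]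
      simp
    rw [a1, a2, hI, hI', ← r1]
    apply Finset.sum_congr rfl
    intro u hu
    rw [r2 u hu]
  rwa [measureReal_eq_measureReal_iff] at e3

end Pool.Agent.Results.MP_87e96d_pr.FinitelyManyAges
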