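import Pool.Agent.L7h50.AG.Dir

/-!
# A single age is determined by the cluster size law among all age distributions

For every probability measure `π` on `[0, ∞)` the first three cluster size probabilities satisfy `3 v₂ ^ 2 ≤ 2 v₁ v₃`, with
equality if and only if `π` is a Dirac measure. So a Dirac measure is determined by `v₁, v₂, v₃` in the class of ALL probability
measures on `[0, ∞)`.

The probabilities (definitions in `Pool.Agent.L7h50.AG.Dir`): a vertex of age `s` has a Poisson number of children with mean
`total π s = ∫ min s u dπ(u)`, and the ages of the children form a Poisson random measure with intensity `min s u dπ(u)`, so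

* `P1 π s = exp (-total π s)` (no child),
* `P2 π s = exp (-total π s) ∫ min s u P1(u) dπ(u)` (one child, without children),
* `P3 π s = exp (-total π s) ((∫ min s u P1(u) dπ(u)) ^ 2 / 2 + ∫ min s u P2(u) dπ(u))` (two children without children, or one
  child whose tree has two vertices)

are the probabilities that the tree with a root of age `s` has 1, 2, 3 vertices; `v k` is the integral over the age of the root.

Method: with `K(s) = ∫ min s u P1(u) dπ(u)` the three probabilities are `∫ P1 dπ`, `∫ P1 K dπ` and (by Fubini)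
`(3/2) ∫ P1 K ^ 2 dπ`; inequality of Cauchy and Schwarz; `K` is constant almost everywhere only for a Dirac measure.
-/

set_option autoImplicit false

open MeasureTheory Set

namespace Pool.Agent.Results.MP_87e96d_pr.OneAgeAmongAll

open Pool.Agent.L7h50.AG

/-- The probabilities that the cluster has 1, 2, 3 vertices. -/
noncomputable def v1 (π : Measure ℝ) : ℝ := ∫ s, P1 π s ∂π

/-- See `v1`. -/
noncomputable def v2 (π : Measure ℝ) : ℝ := ∫ s, P2 π s ∂π

/-- See `v1`. -/
noncomputable def v3 (π : Measure ℝ) : ℝ := ∫ s, P3 π s ∂π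

theorem result (π : Measure ℝ) [IsProbabilityMeasure π] (h0 : π (Iio 0) = 0) :
    3 * v2 π ^ 2 ≤ 2 * v1 π * v3 π ∧
    (3 * v2 π ^ 2 = 2 * v1 π * v3 π ↔ ∃ a : ℝ, 0 ≤ a ∧ π = Measure.dirac a) ∧
    ∀ a : ℝ, 0 ≤ a → v1 π = v1 (Measure.dirac a) → v2 π = v2 (Measure.dirac a) →
      v3 π = v3 (Measure.dirac a) → π = Measure.dirac a := by
  have h0' : ∀ᵐ u ∂π, (0 : ℝ) ≤ u := by
    rw [ae_iff]
    convert h0 using 2
    ext u
    simp
  have hd : ∀ a : ℝ, 3 * v2 (Measure.dirac a) ^ 2 =
      2 * v1 (Measure.dirac a) * v3 (Measure.dirac a) := by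
    intro a
    unfold v1 v2 v3
    rw [v1_dirac, v2_dirac, v3_dirac]
    ring
  refine ⟨ineq h0', ⟨fun h => eq_case h0' h, ?_⟩, ?_⟩
  · rintro ⟨a, _, rfl⟩
    exact hd a
  · intro a _ e1 e2 e3
    obtain ⟨b, _, hb⟩ := eq_case h0' (by
      have := hd a
      rw [← e1, ← e2, ← e3] at this
      exact this)
    have e4 : v1 (Measure.dirac b) = v1 (Measure.dirac a) := by rw [← hb, e1]
    unfold v1 at e4
    rw [v1_dirac, v1_dirac, Real.exp_eq_exp] at e4
    have : b = a := by linarith
    rw [hb, this]

end Pool.Agent.Results.MP_87e96d_pr.OneAgeAmongAll
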