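import Pool.Agent.L7h50.AG.Four
import Pool.Agent.L7h66.AG.Det

/-!
# The distributions with at most one nonzero age are determined by the cluster size law among all age distributions

For every probability measure `π` on `[0, ∞)` the cluster size probabilities satisfy `32 v₃ ^ 2 ≤ 27 v₂ v₄`, with equality if
and only if `π` is carried by `{0, a}` for some `a`. So the two-parameter family `(1 - m) δ₀ + m δ_a` is recognized by
`v₂, v₃, v₄` in the class of ALL probability measures on `[0, ∞)`, and each of its members is determined by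
`v₁, v₂, v₃, v₄` in this class.

The probabilities (`P1`, `P2`, `P3` in `Pool.Agent.L7h50.AG.Dir`, `P4` in `Pool.Agent.L7h50.AG.Two`): a vertex of age `s` has a
Poisson number of children with mean `total π s = ∫ min s u dπ(u)`, the ages of the children form a Poisson random measure
with intensity `min s u dπ(u)`. With `A_j = ∫ min s u P_j(u) dπ(u)` (the mean number of children whose tree has `j`
vertices) the probabilities that the tree with a root of age `s` has 1, 2, 3, 4 vertices are `e`, `e A_1`,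
`e (A_1 ^ 2 / 2 + A_2)`, `e (A_1 ^ 3 / 6 + A_1 A_2 + A_3)`, where `e = exp (-total π s)`; `v k` is the integral over the
age of the root.

Method: with `w = P1`, `K(s) = ∫ min s u w(u) dπ(u)` and `N(s) = ∫ min s u w(u) K(u) dπ(u)` one has
`v₂ = ∫ w K`, `v₃ = (3/2) ∫ w K ^ 2`, `v₄ = (2/3) ∫ w K ^ 3 + 2 ∫ w K N`. Both terms of `v₄` are bounded below by the
inequality of Cauchy and Schwarz, the second one for the positive semidefinite kernel `min s u`.
-/

set_option autoImplicit false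

open MeasureTheory Set

namespace Pool.Agent.Results.MP_87e96d_pr.ZeroAndOneAge

open Pool.Agent.L7h50.AG

/-- The probabilities that the cluster has 1, 2, 3, 4 vertices. -/
noncomputable def v1 (π : Measure ℝ) : ℝ := ∫ s, P1 π s ∂π

/-- See `v1`. -/
noncomputable def v2 (π : Measure ℝ) : ℝ := ∫ s, P2 π s ∂π

/-- See `v1`. -/
noncomputable def v3 (π : Measure ℝ) : ℝ := ∫ s, P3 π s ∂π

/-- See `v1`. -/
noncomputable def v4 (π : Measure ℝ) : ℝ := ∫ s, P4 π s ∂π

lemma ae_two {π : Measure ℝ} {a : ℝ} : π ({0, a} : Set ℝ)ᶜ = 0 ↔ ∀ᵐ u ∂π, u = 0 ∨ u = a := by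
  rw [ae_iff]
  constructor <;> intro h <;> convert h using 2 <;> ext u <;> simp

theorem result (π : Measure ℝ) [IsProbabilityMeasure π] (h0 : π (Iio 0) = 0) :
    32 * v3 π ^ 2 ≤ 27 * v2 π * v4 π ∧
    (32 * v3 π ^ 2 = 27 * v2 π * v4 π ↔ ∃ a : ℝ, 0 ≤ a ∧ π ({0, a} : Set ℝ)ᶜ = 0) ∧
    ∀ π' : Measure ℝ, IsProbabilityMeasure π' → (∃ a : ℝ, 0 ≤ a ∧ π' ({0, a} : Set ℝ)ᶜ = 0) →
      v1 π = v1 π' → v2 π = v2 π' → v3 π = v3 π' → v4 π = v4 π' → π = π' := by
  have h0' : ∀ᵐ u ∂π, (0 : ℝ) ≤ u := by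
    rw [ae_iff]
    convert h0 using 2
    ext u
    simp
  refine ⟨ineq4 h0', ⟨fun h => ?_, ?_⟩, ?_⟩
  · obtain ⟨a, ha, h1⟩ := eq_case4 h0' h
    exact ⟨a, ha, ae_two.2 h1⟩
  · rintro ⟨a, _, h1⟩
    exact eq_conv4 h0' a (ae_two.1 h1)
  · rintro π' hP ⟨a', ha', h1⟩ e1 e2 e3 e4
    have h2 := ae_two.1 h1
    have h0'' : ∀ᵐ u ∂π', (0 : ℝ) ≤ u := by
      filter_upwards [h2] with u hu
      rcases hu with rfl | rfl
      · exact le_rfl
      · exact ha'
    have h3 := eq_conv4 h0'' a' h2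
    have h4 : 32 * (∫ s, P3 π s ∂π) ^ 2 = 27 * (∫ s, P2 π s ∂π) * ∫ s, P4 π s ∂π := by
      have f2 : ∫ s, P2 π s ∂π = ∫ s, P2 π' s ∂π' := e2
      have f3 : ∫ s, P3 π s ∂π = ∫ s, P3 π' s ∂π' := e3
      have f4 : ∫ s, P4 π s ∂π = ∫ s, P4 π' s ∂π' := e4
      rw [f2, f3, f4]
      exact h3
    obtain ⟨a, ha, h5⟩ := eq_case4 h0' h4
    exact Pool.Agent.L7h66.AG.det π π' a a' ha ha' h5 h2 e1 e2 e3

end Pool.Agent.Results.MP_87e96d_pr.ZeroAndOneAge
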